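import Pool.Agent.H10.FEW.Stmts

/-! # FEW, row BLK: blocks of primes -/

set_option autoImplicit false

namespace Pool.FEW

open Finset Pool.Agent.H98.ABCR Pool.SHA

private lemma blk_aux (m : ℕ) : ∀ (B : ℕ) (L : Finset ℕ), m * B ≤ L.card →
    ∃ Bs : Finset (Finset ℕ), Bs.card ≤ B ∧ (∀ M ∈ Bs, M ⊆ L ∧ M.card = m) ∧
      ∀ Z : Finset ℕ, Z.card < B → ∃ M ∈ Bs, Disjoint M Z := by
  intro B
  induction B with
  | zero =>
    intro L _
    exact ⟨∅, by simp, by simp, fun Z hZ => absurd hZ (Nat.not_lt_zero _)⟩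
  | succ B ih =>
    intro L hL
    have hm : m ≤ L.card := by
      refine le_trans ?_ hL
      rw [Nat.mul_succ]; exact Nat.le_add_left _ _
    obtain ⟨M0, hM0, hM0c⟩ := Finset.exists_subset_card_eq hm
    have hL' : m * B ≤ (L \ M0).card := by
      rw [Finset.card_sdiff_of_subset hM0, hM0c]
      rw [Nat.mul_succ] at hL
      omega
    obtain ⟨Bs, hBs, hsub, hZ⟩ := ih (L \ M0) hL'
    refine ⟨insert M0 Bs, ?_, ?_, ?_⟩
    · exact le_trans (Finset.card_insert_le _ _) (Nat.succ_le_succ hBs)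
    · intro M hM
      rcases Finset.mem_insert.1 hM with h | h
      · rw [h]; exact ⟨hM0, hM0c⟩
      · exact ⟨(hsub M h).1.trans Finset.sdiff_subset, (hsub M h).2⟩
    · intro Z hZc
      by_cases hd : Disjoint M0 Z
      · exact ⟨M0, Finset.mem_insert_self _ _, hd⟩
      · obtain ⟨z, hz1, hz2⟩ := Finset.not_disjoint_iff.1 hd
        have hlt : (Z \ M0).card < B := by
          have h1 : (Z \ M0).card < Z.card := by
            refine Finset.card_lt_card ⟨Finset.sdiff_subset, fun h => ?_⟩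
            exact (Finset.mem_sdiff.1 (h hz2)).2 hz1
          omega
        obtain ⟨M, hM, hMd⟩ := hZ _ hlt
        refine ⟨M, Finset.mem_insert_of_mem hM, ?_⟩
        rw [Finset.disjoint_left] at hMd ⊢
        intro a ha haZ
        exact hMd ha (Finset.mem_sdiff.2 ⟨haZ, (Finset.mem_sdiff.1 ((hsub M hM).1 ha)).2⟩)

theorem blk_thm : S_BLK := fun L m B h => blk_aux m B L h

end Pool.FEW
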