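import Pool.Agent.H10.FEW.Stmts

/-! # FEW, row CHO: choice of the modulus -/

set_option autoImplicit false

namespace Pool.FEW

open Finset Pool.Agent.H98.ABCR Pool.SHA

theorem cho_thm : S_CHO := by
  classical
  intro E P x B g hE hg hx hlt
  by_contra hcon
  push Not at hcon
  have hlg : 0 < Real.log g := Real.log_pos hg
  -- each `p` spoils few moduli
  have hbad : ∀ p ∈ P, ((E.filter (fun e => g ≤ (Nat.gcd (x p) e : ℝ))).card : ℝ) * Real.log g ≤
      Real.log B := by
    intro p hp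
    obtain ⟨hx1, hxB⟩ := hx p hp
    set S := E.filter (fun e => g ≤ (Nat.gcd (x p) e : ℝ)) with hS
    have hdvd : ∏ e ∈ S, Nat.gcd (x p) e ∣ x p := by
      refine Finset.prod_dvd_of_isRelPrime ?_ (fun e _ => Nat.gcd_dvd_left _ _)
      intro e he e' he' hne
      have h1 : e ∈ E := (Finset.mem_filter.1 (Finset.mem_coe.1 he)).1
      have h2 : e' ∈ E := (Finset.mem_filter.1 (Finset.mem_coe.1 he')).1
      exact Nat.coprime_iff_isRelPrime.1
        ((hE e h1 e' h2 hne).coprime_dvd_left (Nat.gcd_dvd_right _ _) |>.coprime_dvd_right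
          (Nat.gcd_dvd_right _ _))
    have hle : (∏ e ∈ S, (Nat.gcd (x p) e : ℝ)) ≤ x p := by
      have := Nat.le_of_dvd (by omega) hdvd
      calc (∏ e ∈ S, (Nat.gcd (x p) e : ℝ)) = ((∏ e ∈ S, Nat.gcd (x p) e : ℕ) : ℝ) := by
            push_cast; rfl
        _ ≤ x p := by exact_mod_cast this
    have hpow : g ^ S.card ≤ ∏ e ∈ S, (Nat.gcd (x p) e : ℝ) := by
      rw [← Finset.prod_const]
      exact Finset.prod_le_prod (fun _ _ => by linarith) (fun e he => (Finset.mem_filter.1 he).2)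
    have h3 : g ^ S.card ≤ B := hpow.trans (hle.trans hxB)
    have h4 := Real.log_le_log (by positivity) h3
    rwa [Real.log_pow] at h4
  have hcov : E ⊆ P.biUnion (fun p => E.filter (fun e => g ≤ (Nat.gcd (x p) e : ℝ))) := by
    intro e he
    obtain ⟨p, hp, hpe⟩ := hcon e he
    exact Finset.mem_biUnion.2 ⟨p, hp, Finset.mem_filter.2 ⟨he, hpe⟩⟩
  have h1 : (E.card : ℝ) ≤ ∑ p ∈ P, ((E.filter (fun e => g ≤ (Nat.gcd (x p) e : ℝ))).card : ℝ) := by
    have := (Finset.card_le_card hcov).trans Finset.card_biUnion_le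
    exact_mod_cast this
  have h2 : (E.card : ℝ) * Real.log g ≤ P.card * Real.log B := by
    calc (E.card : ℝ) * Real.log g ≤
        (∑ p ∈ P, ((E.filter (fun e => g ≤ (Nat.gcd (x p) e : ℝ))).card : ℝ)) * Real.log g :=
          mul_le_mul_of_nonneg_right h1 hlg.le
      _ = ∑ p ∈ P, ((E.filter (fun e => g ≤ (Nat.gcd (x p) e : ℝ))).card : ℝ) * Real.log g :=
          Finset.sum_mul _ _ _
      _ ≤ ∑ _p ∈ P, Real.log B := Finset.sum_le_sum hbad
      _ = P.card * Real.log B := by rw [Finset.sum_const, nsmul_eq_mul]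
  linarith

end Pool.FEW
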